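import Mathlib

/-!
# A perfect set containing all finite patterns and carrying no Rajchman measure

Negative answer to MP_701998_an, Q1 (and hence Q2).
-/

open MeasureTheory Filter Topology FourierTransform
open scoped ENNReal SchwartzMap ContDiff

noncomputable section

namespace Pool.Agent.Results.MP_701998_an.NoDecayAllPatterns

/-- `E` contains an affine copy `a + bF`, `b ≠ 0`, of every finite set `F ⊂ ℝ`. -/
def ContainsAllFinitePatterns (E : Set ℝ) : Prop :=
  ∀ F : Set ℝ, F.Finite → ∃ a b : ℝ, b ≠ 0 ∧ ∀ x ∈ F, a + b * x ∈ E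

/-- The Fourier transform `ξ ↦ ∫ e^{-2πixξ} dμ(x)` of a measure on the line. -/
def mhat (μ : Measure ℝ) (ξ : ℝ) : ℂ :=
  ∫ x, Complex.exp (-2 * Real.pi * Complex.I * x * ξ) ∂μ

/-- The Fourier transform of `μ` tends to `0` at infinity. -/
def Decays (μ : Measure ℝ) : Prop := Tendsto (mhat μ) (cocompact ℝ) (𝓝 0)

/-! ### The pieces -/

/-- Digit sequences in base `b` with all digits at most `b - 2`. -/
def dset (b : ℕ) : Set (ℕ → Fin b) := {d | ∀ i, (d i : ℕ) + 2 ≤ b}

/-- The numbers in `[2b, 2b+1]` whose fractional part has digits at most `b - 2`. -/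
def piece (b : ℕ) : Set ℝ := (fun d : ℕ → Fin b => (2 * b : ℝ) + Real.ofDigits d) '' dset b

/-- The perfect set. -/
def bigE : Set ℝ := ⋃ b : ℕ, piece (b + 3)

lemma isClosed_dset (b : ℕ) : IsClosed (dset b) := by
  have : dset b = ⋂ i : ℕ, (fun d : ℕ → Fin b => d i) ⁻¹' {c | (c : ℕ) + 2 ≤ b} := by
    ext d; simp [dset]
  rw [this]
  exact isClosed_iInter (fun i => (isClosed_discrete _).preimage (continuous_apply i))

lemma isCompact_piece (b : ℕ) : IsCompact (piece b) :=
  (isClosed_dset b).isCompact.image (continuous_const.add Real.continuous_ofDigits)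

lemma piece_subset (b : ℕ) : piece b ⊆ Set.Icc (2 * b : ℝ) (2 * b + 1) := by
  rintro _ ⟨d, _, rfl⟩
  exact ⟨by linarith [Real.ofDigits_nonneg d], by linarith [Real.ofDigits_le_one d]⟩

lemma isClosed_bigE : IsClosed bigE := by
  unfold bigE
  apply LocallyFinite.isClosed_iUnion
  · intro x
    refine ⟨Set.Ioo (x - 1) (x + 1), Ioo_mem_nhds (by linarith) (by linarith), ?_⟩
    apply (Set.finite_le_nat ⌈x + 1⌉₊).subset
    rintro b ⟨y, hy, hy2⟩
    have h1 := (piece_subset _ hy).1
    have h2 := hy2.2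
    have h3 := Nat.le_ceil (x + 1)
    have h4 : (b : ℝ) ≤ (⌈x + 1⌉₊ : ℝ) := by
      push_cast at h1
      have : (0 : ℝ) ≤ b := Nat.cast_nonneg b
      linarith
    show b ≤ ⌈x + 1⌉₊
    exact_mod_cast h4
  · intro b
    exact (isCompact_piece _).isClosed

lemma perfect_bigE : Perfect bigE := by
  refine ⟨isClosed_bigE, ?_⟩
  intro x hx
  obtain ⟨b, d, hd, rfl⟩ := Set.mem_iUnion.mp hx
  rw [accPt_iff_nhds]
  intro U hU
  obtain ⟨ε, hε, hball⟩ := Metric.mem_nhds_iff.mp hU
  obtain ⟨n, hn⟩ := exists_pow_lt_of_lt_one hε (show (1 / ((b : ℝ) + 3)) < 1 by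
    rw [div_lt_one (by positivity)]; have : (0 : ℝ) ≤ b := Nat.cast_nonneg b; linarith)
  -- change the `n`-th digit
  let c : Fin (b + 3) := if (d n : ℕ) = 0 then ⟨1, by omega⟩ else ⟨0, by omega⟩
  have hc : c ≠ d n := by
    intro h
    have h' := congrArg Fin.val h
    simp only [c] at h'
    split_ifs at h' with h0 <;> simp at h' <;> omega
  have hc2 : (c : ℕ) + 2 ≤ b + 3 := by
    simp only [c]
    split_ifs <;> simp
  let d' : ℕ → Fin (b + 3) := Function.update d n c
  have hd' : d' ∈ dset (b + 3) := by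
    intro i
    by_cases hi : i = n
    · subst hi; simp only [d', Function.update_self]; exact hc2
    · simp only [d', Function.update_of_ne hi]; exact hd i
  refine ⟨((2 * ((b + 3 : ℕ) : ℝ)) + Real.ofDigits d' : ℝ), ⟨?_, ?_⟩, ?_⟩
  · apply hball
    rw [Metric.mem_ball, dist_add_left, Real.dist_eq]
    refine lt_of_le_of_lt (Real.abs_ofDigits_sub_ofDigits_le (n := n) ?_) ?_
    · intro i hi
      simp only [d']
      rw [Function.update_of_ne (by omega)]
    · rw [one_div, inv_pow] at hn
      push_cast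
      exact hn
  · exact Set.mem_iUnion.mpr ⟨b, d', hd', rfl⟩
  · intro h
    have h1 : Real.ofDigits d' = Real.ofDigits d := by
      have := h
      simpa using this
    rw [Real.ofDigits_eq_sum_add_ofDigits d' (n + 1), Real.ofDigits_eq_sum_add_ofDigits d (n + 1)]
      at h1
    have h2 : (fun i => d' (i + (n + 1))) = (fun i => d (i + (n + 1))) := by
      funext i
      simp only [d']
      rw [Function.update_of_ne (by omega)]
    have h3 : ∑ i ∈ Finset.range n, Real.ofDigitsTerm d' i
        = ∑ i ∈ Finset.range n, Real.ofDigitsTerm d i := by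
      apply Finset.sum_congr rfl
      intro i hi
      have : i < n := Finset.mem_range.mp hi
      simp only [Real.ofDigitsTerm, d']
      rw [Function.update_of_ne (by omega)]
    rw [h2, Finset.sum_range_succ, Finset.sum_range_succ, h3] at h1
    have h4 : Real.ofDigitsTerm d' n = Real.ofDigitsTerm d n := by linarith
    simp only [Real.ofDigitsTerm, d', Function.update_self] at h4
    have h5 : ((c : ℕ) : ℝ) = ((d n : ℕ) : ℝ) := by
      have hne : (((b + 3 : ℕ) : ℝ) ^ (n + 1))⁻¹ ≠ 0 := by positivity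
      exact mul_right_cancel₀ hne h4
    exact hc (Fin.ext (by exact_mod_cast h5))

/-! ### All finite patterns -/

lemma ofDigits_digits_mem {b : ℕ} [NeZero b] (hb : 1 < b) {x : ℝ} (hx : x ∈ Set.Ico (0 : ℝ) 1)
    (h : ∀ i, ⌊x * b ^ (i + 1)⌋₊ % b + 2 ≤ b) : (2 * b : ℝ) + x ∈ piece b := by
  refine ⟨Real.digits x b, ?_, ?_⟩
  · intro i
    simpa [Real.digits] using h i
  · simp only [Real.ofDigits_digits hb hx]

/-- choice of a digit avoiding finitely many bad values -/
lemma exists_digit {b : ℕ} (hb : 0 < b) (S : Finset ℕ) (hS : 2 * S.card < b) :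
    ∃ c : ℕ, c < b ∧ ∀ y ∈ S, (c + y) % b + 3 ≤ b := by
  have : NeZero b := ⟨by omega⟩
  classical
  let B : Finset (ZMod b) := S.image (fun y : ℕ => (-1 - (y : ZMod b))) ∪
    S.image (fun y : ℕ => (-2 - (y : ZMod b)))
  have hB : B.card < Fintype.card (ZMod b) := by
    rw [ZMod.card]
    calc B.card ≤ _ := Finset.card_union_le _ _
      _ ≤ S.card + S.card := add_le_add Finset.card_image_le Finset.card_image_le
      _ < b := by omega
  obtain ⟨c, hc⟩ : ∃ c : ZMod b, c ∉ B := by
    by_contra hcon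
    push Not at hcon
    have : B = Finset.univ := Finset.eq_univ_iff_forall.mpr hcon
    rw [this, Finset.card_univ] at hB
    exact lt_irrefl _ hB
  refine ⟨c.val, ZMod.val_lt c, ?_⟩
  intro y hy
  by_contra hcon
  have hlt : (c.val + y) % b < b := Nat.mod_lt _ hb
  have hcases : (c.val + y) % b + 1 = b ∨ (c.val + y) % b + 2 = b := by omega
  have hcast : ((c.val + y : ℕ) : ZMod b) = (((c.val + y) % b : ℕ) : ZMod b) := by
    rw [ZMod.natCast_mod]
  have hself : ((c.val + y : ℕ) : ZMod b) = c + y := by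
    rw [Nat.cast_add, ZMod.natCast_zmod_val]
  apply hc
  rcases hcases with h | h
  · have h1 : (((c.val + y) % b + 1 : ℕ) : ZMod b) = 0 := by rw [h]; exact ZMod.natCast_self b
    rw [Nat.cast_add, ← hcast, hself] at h1
    have : c = -1 - (y : ZMod b) := by
      push_cast at h1
      linear_combination h1
    exact Finset.mem_union_left _ (Finset.mem_image.mpr ⟨y, hy, this.symm⟩)
  · have h1 : (((c.val + y) % b + 2 : ℕ) : ZMod b) = 0 := by rw [h]; exact ZMod.natCast_self b
    rw [Nat.cast_add, ← hcast, hself] at h1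
    have : c = -2 - (y : ZMod b) := by
      push_cast at h1
      linear_combination h1
    exact Finset.mem_union_right _ (Finset.mem_image.mpr ⟨y, hy, this.symm⟩)

/-- Every finite set of small nonnegative numbers can be translated into the piece. -/
lemma exists_translate {b : ℕ} (Y : Finset ℝ) (hY : 2 * Y.card < b) (hb : 3 ≤ b)
    (hY0 : ∀ y ∈ Y, 0 ≤ y ∧ y < 1 / b) : ∃ a : ℝ, ∀ y ∈ Y, a + y ∈ piece b := by
  classical
  have : NeZero b := ⟨by omega⟩
  have hbpos : (0 : ℝ) < b := by positivity
  -- the digits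
  have hdig : ∀ j : ℕ, ∃ c : ℕ, c < b ∧ (j = 0 → c = 0) ∧
      ∀ y ∈ Y, (c + ⌊y * b ^ (j + 1)⌋₊) % b + 3 ≤ b := by
    intro j
    rcases Nat.eq_zero_or_pos j with rfl | hj
    · refine ⟨0, by omega, fun _ => rfl, ?_⟩
      intro y hy
      have : ⌊y * (b : ℝ) ^ (0 + 1)⌋₊ = 0 := by
        rw [Nat.floor_eq_zero, zero_add, pow_one]
        have := (hY0 y hy).2
        rwa [lt_div_iff₀ hbpos] at this
      rw [this]
      simpa using hb
    · obtain ⟨c, hc, h⟩ := exists_digit (by omega : 0 < b)
        (Y.image (fun y => ⌊y * (b : ℝ) ^ (j + 1)⌋₊))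
        (lt_of_le_of_lt (Nat.mul_le_mul_left 2 Finset.card_image_le) hY)
      refine ⟨c, hc, fun h0 => absurd h0 (by omega), ?_⟩
      intro y hy
      exact h _ (Finset.mem_image_of_mem _ hy)
  choose c hc hc0 hcy using hdig
  let d : ℕ → Fin b := fun j => ⟨c j, hc j⟩
  refine ⟨2 * b + Real.ofDigits d, ?_⟩
  intro y hy
  obtain ⟨hy0, hy1⟩ := hY0 y hy
  rw [add_assoc]
  -- floors
  have hfloor : ∀ j : ℕ, ⌊(Real.ofDigits d + y) * b ^ (j + 1)⌋₊ % b + 2 ≤ b := by
    intro j
    obtain ⟨A, hA, hAmod⟩ : ∃ A : ℕ, Real.ofDigits d * b ^ (j + 1)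
        = A + Real.ofDigits (fun i => d (i + (j + 1))) ∧ A % b = c j % b := by
      refine ⟨∑ i ∈ Finset.range (j + 1), c i * b ^ (j - i), ?_, ?_⟩
      · rw [Real.ofDigits_eq_sum_add_ofDigits d (j + 1), add_mul, Finset.sum_mul]
        congr 1
        · push_cast
          apply Finset.sum_congr rfl
          intro i hi
          have hi' : i ≤ j := by have := Finset.mem_range.mp hi; omega
          simp only [Real.ofDigitsTerm, d]
          have : (b : ℝ) ^ (j + 1) = b ^ (i + 1) * b ^ (j - i) := by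
            rw [← pow_add]; congr 1; omega
          rw [this]
          field_simp
        · field_simp
      · rw [Finset.sum_range_succ, Nat.sub_self, pow_zero, mul_one, Nat.add_mod]
        have : (∑ i ∈ Finset.range j, c i * b ^ (j - i)) % b = 0 := by
          apply Nat.mod_eq_zero_of_dvd
          apply Finset.dvd_sum
          intro i hi
          have : i < j := Finset.mem_range.mp hi
          exact Dvd.dvd.mul_left (dvd_pow_self b (by omega)) _
        rw [this, zero_add, Nat.mod_mod]
    set α := Real.ofDigits (fun i => d (i + (j + 1))) with hα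
    have hα0 : 0 ≤ α := Real.ofDigits_nonneg _
    have hα1 : α ≤ 1 := Real.ofDigits_le_one _
    set Z := ⌊y * (b : ℝ) ^ (j + 1)⌋₊ with hZ
    have hZ1 : (Z : ℝ) ≤ y * b ^ (j + 1) := Nat.floor_le (by positivity)
    have hZ2 : y * b ^ (j + 1) < (Z : ℝ) + 1 := Nat.lt_floor_add_one _
    have hsum : (Real.ofDigits d + y) * b ^ (j + 1) = A + α + y * b ^ (j + 1) := by
      rw [add_mul, hA]
    obtain ⟨e, he, hfl⟩ : ∃ e : ℕ, e ≤ 1 ∧ ⌊(Real.ofDigits d + y) * b ^ (j + 1)⌋₊ = A + Z + e := by
      rw [hsum]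
      have h1 : (A + Z : ℕ) ≤ ⌊(A : ℝ) + α + y * b ^ (j + 1)⌋₊ := by
        apply Nat.le_floor
        push_cast
        linarith
      have h2 : ⌊(A : ℝ) + α + y * b ^ (j + 1)⌋₊ < A + Z + 2 := by
        rw [Nat.floor_lt (by positivity)]
        push_cast
        linarith
      exact ⟨⌊(A : ℝ) + α + y * b ^ (j + 1)⌋₊ - (A + Z), by omega, by omega⟩
    rw [hfl]
    have h3 := hcy j y hy
    rw [← hZ] at h3
    have h4 : (A + Z) % b = (c j + Z) % b := by
      rw [Nat.add_mod, hAmod, ← Nat.add_mod]
    rw [← h4] at h3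
    generalize A + Z = T at h3 ⊢
    have h5 : (T + e) % b = T % b + e := by
      rw [Nat.add_mod, Nat.mod_eq_of_lt (show e < b by omega), Nat.mod_eq_of_lt (by omega)]
    rw [h5]
    omega
  apply ofDigits_digits_mem (by omega) _ hfloor
  -- in `[0,1)`
  refine ⟨by linarith [Real.ofDigits_nonneg d], ?_⟩
  have h1 : Real.ofDigits d ≤ 1 / b := by
    rw [Real.ofDigits_eq_sum_add_ofDigits d 1]
    simp only [Finset.sum_range_one, Real.ofDigitsTerm, d, hc0 0 rfl, Nat.cast_zero, zero_mul,
      zero_add, pow_one]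
    rw [one_div]
    exact mul_le_of_le_one_right (by positivity) (Real.ofDigits_le_one _)
  have h2 : (1 : ℝ) / b ≤ 1 / 3 := by
    apply one_div_le_one_div_of_le (by norm_num)
    exact_mod_cast hb
  linarith

lemma patterns_bigE : ContainsAllFinitePatterns bigE := by
  classical
  intro F hF
  let N := hF.toFinset.card
  let b := 2 * N + 3
  obtain ⟨R, hR⟩ : ∃ R : ℝ, ∀ x ∈ F, |x| ≤ R := by
    obtain ⟨R, hR⟩ := (hF.isBounded.subset_closedBall 0)
    exact ⟨R, fun x hx => by simpa [Real.dist_eq] using hR hx⟩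
  let R' : ℝ := |R| + 1
  have hR' : 0 < R' := by positivity
  have hbpos : (0 : ℝ) < b := by positivity
  let t : ℝ := 1 / (2 * b * R')
  have ht : 0 < t := by positivity
  let Y : Finset ℝ := hF.toFinset.image (fun x => t * (x + R'))
  have hYc : 2 * Y.card < b := by
    have : Y.card ≤ N := Finset.card_image_le
    omega
  have hY0 : ∀ y ∈ Y, 0 ≤ y ∧ y < 1 / b := by
    intro y hy
    obtain ⟨x, hx, rfl⟩ := Finset.mem_image.mp hy
    have h1 := abs_le.mp (hR x (hF.mem_toFinset.mp hx))
    have h2 : R ≤ |R| := le_abs_self R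
    refine ⟨mul_nonneg ht.le (by simp only [R']; linarith), ?_⟩
    have h3 : x + R' < 2 * R' := by simp only [R']; linarith
    calc t * (x + R') < t * (2 * R') := mul_lt_mul_of_pos_left h3 ht
      _ = 1 / b := by simp only [t]; field_simp
  obtain ⟨a, ha⟩ := exists_translate Y hYc (by omega) hY0
  refine ⟨a + t * R', t, ht.ne', ?_⟩
  intro x hx
  have h1 := ha (t * (x + R')) (Finset.mem_image_of_mem _ (hF.mem_toFinset.mpr hx))
  have h2 : a + t * R' + t * x = a + t * (x + R') := by ring
  rw [h2]
  exact Set.mem_iUnion.mpr ⟨2 * N, h1⟩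

/-! ### The gaps -/

/-- The character `e(x) = exp(2πix)`. -/
def e (x : ℝ) : ℂ := Complex.exp ((2 * Real.pi * x : ℝ) * Complex.I)

lemma norm_e (x : ℝ) : ‖e x‖ = 1 := Complex.norm_exp_ofReal_mul_I _

lemma e_add (x y : ℝ) : e (x + y) = e x * e y := by
  unfold e
  rw [← Complex.exp_add]; congr 1; push_cast; ring

lemma e_natCast (n : ℕ) : e n = 1 := by
  unfold e
  rw [Complex.exp_eq_one_iff]
  exact ⟨n, by push_cast; ring⟩

lemma continuous_e : Continuous e := by
  unfold e; fun_prop

lemma e_nat_mul (n : ℕ) (x : ℝ) : e (n * x) = e x ^ n := by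
  unfold e
  rw [← Complex.exp_nat_mul]; congr 1; push_cast; ring

/-- distance from `1` -/
lemma norm_e_sub_one {δ y : ℝ} (hδ : 0 < δ) (h1 : δ ≤ y) (h2 : y ≤ 1 - δ) :
    2 * Real.sin (Real.pi * δ) ≤ ‖e y - 1‖ := by
  have h3 : ‖e y - 1‖ = 2 * |Real.sin (Real.pi * y)| := by
    unfold e
    have : (((2 * Real.pi * y : ℝ) : ℂ) * Complex.I) = Complex.I * ((2 * Real.pi * y : ℝ) : ℂ) := by
      ring
    rw [this, Complex.norm_exp_I_mul_ofReal_sub_one, Real.norm_eq_abs, abs_mul,
      abs_of_pos (by norm_num : (0 : ℝ) < 2)]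
    congr 3
    ring
  rw [h3]
  have hpi := Real.pi_pos
  have h4 : Real.sin (Real.pi * δ) ≤ Real.sin (Real.pi * y) := by
    rcases le_total y (1 / 2) with h | h
    · apply Real.sin_le_sin_of_le_of_le_pi_div_two
      · have : 0 < Real.pi * δ := by positivity
        linarith
      · nlinarith
      · exact mul_le_mul_of_nonneg_left h1 hpi.le
    · rw [← Real.sin_pi_sub (Real.pi * y)]
      apply Real.sin_le_sin_of_le_of_le_pi_div_two
      · have : 0 < Real.pi * δ := by positivity
        linarith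
      · nlinarith
      · nlinarith
  have := le_abs_self (Real.sin (Real.pi * y))
  linarith

/-- Dirichlet sums are bounded on dilates of the pieces. -/
lemma dirichlet_bound {b : ℕ} (hb : 3 ≤ b) {x : ℝ} (hx : x ∈ piece b) (k N : ℕ) :
    ‖∑ j ∈ Finset.range N, e (j * (b ^ k * x + 1 / (2 * b)))‖
      ≤ 1 / Real.sin (Real.pi * (1 / (2 * b))) := by
  obtain ⟨d, hd, rfl⟩ := hx
  have hbpos : (0 : ℝ) < b := by positivity
  have hb3 : (3 : ℝ) ≤ b := by exact_mod_cast hb
  set u := Real.ofDigits (fun i => d (i + k)) with hu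
  have hu0 : 0 ≤ u := Real.ofDigits_nonneg _
  have hu1 : u ≤ 1 - 1 / b := by
    rw [hu, Real.ofDigits_eq_sum_add_ofDigits _ 1]
    simp only [Finset.sum_range_one, Real.ofDigitsTerm, zero_add, pow_one]
    have h1 := Real.ofDigits_le_one (fun i => d (i + 1 + k))
    have h2 : ((d k : ℕ) : ℝ) + 2 ≤ b := by exact_mod_cast hd k
    have h3 : ((d k : ℕ) : ℝ) * (b : ℝ)⁻¹ + (b : ℝ)⁻¹ * Real.ofDigits (fun i => d (i + 1 + k))
        ≤ (b - 2) * (b : ℝ)⁻¹ + (b : ℝ)⁻¹ * 1 := by
      have hbi : 0 ≤ (b : ℝ)⁻¹ := by positivity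
      have := mul_le_mul_of_nonneg_right (show ((d k : ℕ) : ℝ) ≤ b - 2 by linarith) hbi
      have := mul_le_mul_of_nonneg_left h1 hbi
      linarith
    refine h3.trans (le_of_eq ?_)
    field_simp
    ring
  -- `b ^ k x = integer + u`
  obtain ⟨A, hA⟩ : ∃ A : ℕ, (b : ℝ) ^ k * (2 * b + Real.ofDigits d) = A + u := by
    refine ⟨2 * b * b ^ k + ∑ i ∈ Finset.range k, (d i : ℕ) * b ^ (k - 1 - i), ?_⟩
    rw [Real.ofDigits_eq_sum_add_ofDigits d k, mul_add, mul_add, Finset.mul_sum]
    have h1 : ∑ i ∈ Finset.range k, (b : ℝ) ^ k * Real.ofDigitsTerm d i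
        = ((∑ i ∈ Finset.range k, (d i : ℕ) * b ^ (k - 1 - i) : ℕ) : ℝ) := by
      push_cast
      apply Finset.sum_congr rfl
      intro i hi
      have hi' : i < k := Finset.mem_range.mp hi
      simp only [Real.ofDigitsTerm]
      have : (b : ℝ) ^ k = b ^ (i + 1) * b ^ (k - 1 - i) := by
        rw [← pow_add]; congr 1; omega
      rw [this]
      field_simp
    rw [h1]
    have h2 : (b : ℝ) ^ k * (((b : ℝ) ^ k)⁻¹ * u) = u := by
      field_simp
    rw [h2]
    push_cast
    ring
  set y := u + 1 / (2 * b) with hy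
  have hz : ∀ j : ℕ, e (j * ((b : ℝ) ^ k * (2 * b + Real.ofDigits d) + 1 / (2 * b))) = e y ^ j := by
    intro j
    rw [e_nat_mul, hA, add_assoc, e_add, e_natCast, one_mul]
  simp only
  simp_rw [hz]
  have hδ : (0 : ℝ) < 1 / (2 * b) := by positivity
  have hgap : 2 * Real.sin (Real.pi * (1 / (2 * b))) ≤ ‖e y - 1‖ := by
    apply norm_e_sub_one hδ
    · linarith
    · have : (1 : ℝ) / b = 2 * (1 / (2 * b)) := by field_simp
      rw [hy]; linarith
  have hspos : 0 < Real.sin (Real.pi * (1 / (2 * b))) := by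
    apply Real.sin_pos_of_pos_of_lt_pi
    · have := Real.pi_pos; positivity
    · have h5 : (1 : ℝ) / (2 * b) < 1 := by
        rw [div_lt_one (by positivity)]; linarith
      nlinarith [Real.pi_pos]
  have hne : e y ≠ 1 := by
    intro h
    rw [h, sub_self, norm_zero] at hgap
    linarith
  rw [geom_sum_eq hne, norm_div, div_le_div_iff₀ (by linarith) hspos]
  have h6 : ‖e y ^ N - 1‖ ≤ 2 := by
    calc ‖e y ^ N - 1‖ ≤ ‖e y ^ N‖ + ‖(1 : ℂ)‖ := norm_sub_le _ _
      _ = 2 := by rw [norm_pow, norm_e, one_pow, norm_one]; norm_num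
  nlinarith

/-! ### Localisation of decay -/

lemma schwartz_decay (μ : Measure ℝ) [IsFiniteMeasure μ] (hμ : Decays μ) (g : 𝓢(ℝ, ℂ))
    {s : ℕ → ℝ} (hs : Tendsto s atTop (cocompact ℝ)) :
    Tendsto (fun n => ∫ x, e (s n * x) * g x ∂μ) atTop (𝓝 0) := by
  have hinv : ∀ x : ℝ, g x = ∫ t : ℝ, e (t * x) * (𝓕 g) t := by
    intro x
    have h1 : 𝓕⁻ (𝓕 g) = g := FourierTransform.fourierInv_fourier_eq g
    have h2 : g x = (𝓕⁻ (𝓕 g)) x := by rw [h1]
    rw [h2, SchwartzMap.fourierInv_coe, Real.fourierInv_eq']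
    apply integral_congr_ae
    filter_upwards with t
    simp only [smul_eq_mul]
    unfold e
    congr 2
    simp
    ring
  have key : ∀ r : ℝ, ∫ x, e (r * x) * g x ∂μ = ∫ t : ℝ, (𝓕 g) t * mhat μ (-(t + r)) := by
    intro r
    have h1 : ∀ x : ℝ, e (r * x) * g x = ∫ t : ℝ, e (r * x) * (e (t * x) * (𝓕 g) t) := by
      intro x
      rw [integral_const_mul, ← hinv]
    simp_rw [h1]
    rw [integral_integral_swap]
    · apply integral_congr_ae
      filter_upwards with t
      have h2 : ∀ x : ℝ, e (r * x) * (e (t * x) * (𝓕 g) t)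
          = (𝓕 g) t * Complex.exp (-2 * Real.pi * Complex.I * x * ((-(t + r) : ℝ) : ℂ)) := by
        intro x
        rw [← mul_assoc, ← e_add, mul_comm]
        congr 1
        unfold e
        congr 1
        push_cast
        ring
      simp_rw [h2]
      rw [integral_const_mul]
      rfl
    · have h3 : Integrable (fun p : ℝ × ℝ => (1 : ℂ) * (𝓕 g) p.2) (μ.prod volume) :=
        Integrable.mul_prod (integrable_const (1 : ℂ)) (𝓕 g).integrable
      refine h3.mono ?_ ?_
      · apply Continuous.aestronglyMeasurable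
        have := (𝓕 g).continuous
        have := continuous_e
        fun_prop
      · filter_upwards with p
        simp only [Function.uncurry, norm_mul, norm_e, one_mul, le_refl]
  simp_rw [key]
  have h0 : (∫ t : ℝ, (𝓕 g) t * (0 : ℂ)) = 0 := by simp
  rw [← h0]
  have hbound : ∀ ξ, ‖mhat μ ξ‖ ≤ μ.real Set.univ := by
    intro ξ
    unfold mhat
    refine (norm_integral_le_of_norm_le_const (C := 1) ?_).trans (by simp)
    filter_upwards with x
    have : -2 * Real.pi * Complex.I * x * ξ = ((-2 * Real.pi * x * ξ : ℝ) : ℂ) * Complex.I := by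
      push_cast; ring
    rw [this, Complex.norm_exp_ofReal_mul_I]
  have hcont : Continuous (mhat μ) := by
    unfold mhat
    apply continuous_of_dominated (bound := fun _ => (1 : ℝ))
    · intro ξ
      exact Continuous.aestronglyMeasurable (by fun_prop)
    · intro ξ
      filter_upwards with x
      have : -2 * Real.pi * Complex.I * x * ξ = ((-2 * Real.pi * x * ξ : ℝ) : ℂ) * Complex.I := by
        push_cast; ring
      rw [this, Complex.norm_exp_ofReal_mul_I]
    · exact integrable_const _
    · filter_upwards with x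
      fun_prop
  apply tendsto_integral_of_dominated_convergence (fun t => ‖(𝓕 g) t‖ * μ.real Set.univ)
  · intro n
    exact ((𝓕 g).continuous.mul (hcont.comp (by fun_prop))).aestronglyMeasurable
  · exact (𝓕 g).integrable.norm.mul_const _
  · intro n
    filter_upwards with t
    rw [norm_mul]
    exact mul_le_mul_of_nonneg_left (hbound _) (norm_nonneg _)
  · filter_upwards with t
    apply Tendsto.const_mul
    apply hμ.comp
    have h1 : Tendsto (fun x : ℝ => -(t + x)) (cocompact ℝ) (cocompact ℝ) :=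
      ((Homeomorph.addLeft t).trans (Homeomorph.neg ℝ)).isClosedEmbedding.tendsto_cocompact
    exact h1.comp hs

/-! ### The main argument -/

lemma e_neg (x : ℝ) : e (-x) = (starRingEnd ℂ) (e x) := by
  unfold e
  rw [← Complex.exp_conj]
  congr 1
  rw [map_mul, Complex.conj_I, Complex.conj_ofReal]
  push_cast
  ring

lemma no_decay (μ : Measure ℝ) [IsFiniteMeasure μ] (h0 : μ ≠ 0) (hsupp : μ.support ⊆ bigE) :
    ¬ Decays μ := by
  intro hμ
  have hE : ∀ᵐ x ∂μ, x ∈ bigE := by
    filter_upwards [Measure.support_mem_ae (μ := μ)] with x hx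
    exact hsupp hx
  -- a piece of positive measure
  obtain ⟨b, hb⟩ : ∃ b : ℕ, μ (piece (b + 3)) ≠ 0 := by
    by_contra hcon
    push Not at hcon
    have h1 : μ bigE = 0 := by
      unfold bigE
      exact measure_iUnion_null hcon
    have h2 : μ Set.univ = 0 := by
      rw [← Set.union_compl_self bigE]
      apply measure_union_null h1
      exact hE
    exact h0 (Measure.measure_univ_eq_zero.mp h2)
  set B : ℕ := b + 3 with hB
  have hBpos : (0 : ℝ) < B := by positivity
  have hB3 : (3 : ℝ) ≤ B := by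
    have : 3 ≤ B := by omega
    exact_mod_cast this
  -- the bump
  let f : ContDiffBump (2 * B + 1 / 2 : ℝ) := ⟨1 / 2, 1, by norm_num, by norm_num⟩
  have hfc : HasCompactSupport (Complex.ofRealCLM ∘ f) := f.hasCompactSupport.comp_left rfl
  have hfs : ContDiff ℝ ∞ (Complex.ofRealCLM ∘ f) := by
    exact Complex.ofRealCLM.contDiff.comp f.contDiff
  let G : 𝓢(ℝ, ℂ) := hfc.toSchwartzMap hfs
  have hG : ∀ x, G x = (f x : ℂ) := fun x => rfl
  have hf0 : ∀ x, 0 ≤ f x := fun x => f.nonneg
  have hfone : ∀ x ∈ piece B, f x = 1 := by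
    intro x hx
    apply f.one_of_mem_closedBall
    have h1 := piece_subset B hx
    rw [Metric.mem_closedBall, Real.dist_eq, abs_le]
    show -(1 / 2) ≤ _ ∧ _ ≤ (1 / 2 : ℝ)
    constructor <;> linarith [h1.1, h1.2]
  have hfzero : ∀ x ∈ bigE, x ∉ piece B → f x = 0 := by
    intro x hx hxB
    obtain ⟨b', hb'⟩ := Set.mem_iUnion.mp hx
    apply f.zero_of_le_dist
    show (1 : ℝ) ≤ _
    have h1 := piece_subset _ hb'
    have hne : b' ≠ b := by
      rintro rfl
      exact hxB hb'
    rw [Real.dist_eq]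
    have h2 : (B : ℝ) = b + 3 := by rw [hB]; push_cast; ring
    rw [h2]
    obtain ⟨h3, h4⟩ := h1
    push_cast at h3 h4
    rcases lt_or_gt_of_ne hne with h | h
    · have h5 : (b' : ℝ) + 1 ≤ b := by exact_mod_cast h
      rw [abs_of_nonpos (by linarith)]
      linarith
    · have h5 : (b : ℝ) + 1 ≤ b' := by exact_mod_cast h
      rw [abs_of_nonneg (by linarith)]
      linarith
  have hfint : Integrable (fun x => f x) μ := by
    apply Integrable.mono' (integrable_const (1 : ℝ)) f.continuous.aestronglyMeasurable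
    filter_upwards with x
    rw [Real.norm_of_nonneg (hf0 x)]
    exact f.le_one
  set m : ℝ := ∫ x, f x ∂μ with hm
  have hmpos : 0 < m := by
    rw [hm, integral_pos_iff_support_of_nonneg hf0 hfint]
    refine lt_of_lt_of_le (pos_iff_ne_zero.mpr hb) (measure_mono ?_)
    intro x hx
    rw [Function.mem_support, hfone x hx]
    exact one_ne_zero
  set C : ℝ := 1 / Real.sin (Real.pi * (1 / (2 * B))) with hC
  have main : ∀ N : ℕ, (N : ℝ) * m ≤ C ^ 2 * m := by
    intro N
    -- the phases
    let T : ℕ → ℕ → ℕ → ℂ := fun k j l =>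
      ∫ x, e (((j : ℝ) - l) * (B ^ k * x + 1 / (2 * B))) * G x ∂μ
    have hint : ∀ k j l : ℕ, Integrable
        (fun x => e (((j : ℝ) - l) * (B ^ k * x + 1 / (2 * B))) * G x) μ := by
      intro k j l
      apply Integrable.mono' hfint
      · apply Continuous.aestronglyMeasurable
        have := G.continuous
        have := continuous_e
        fun_prop
      · filter_upwards with x
        rw [norm_mul, norm_e, one_mul, hG, Complex.norm_real, Real.norm_of_nonneg (hf0 x)]
    have hT : ∀ j l : ℕ, Tendsto (fun k => T k j l) atTop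
        (𝓝 (if j = l then (m : ℂ) else 0)) := by
      intro j l
      by_cases hjl : j = l
      · subst hjl
        rw [if_pos rfl]
        have : ∀ k, T k j j = (m : ℂ) := by
          intro k
          simp only [T, sub_self, zero_mul]
          have h1 : e 0 = 1 := by unfold e; simp
          simp only [h1, one_mul, hG]
          rw [integral_complex_ofReal]
        simp_rw [this]
        exact tendsto_const_nhds
      · rw [if_neg hjl]
        have h1 : ∀ k, T k j l = e (((j : ℝ) - l) * (1 / (2 * B))) *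
            ∫ x, e ((((j : ℝ) - l) * B ^ k) * x) * G x ∂μ := by
          intro k
          simp only [T]
          rw [← integral_const_mul]
          congr 1
          funext x
          rw [← mul_assoc, ← e_add]
          congr 2
          ring
        simp_rw [h1]
        rw [← mul_zero (e (((j : ℝ) - l) * (1 / (2 * B))))]
        apply Tendsto.const_mul
        apply schwartz_decay μ hμ G
        have hne : ((j : ℝ) - l) ≠ 0 := by
          rw [sub_ne_zero]; exact_mod_cast hjl
        have h2 : Tendsto (fun k : ℕ => (B : ℝ) ^ k) atTop atTop :=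
          tendsto_pow_atTop_atTop_of_one_lt (by linarith)
        have h3 : Tendsto (fun x : ℝ => ((j : ℝ) - l) * x) (cocompact ℝ) (cocompact ℝ) :=
          (Homeomorph.mulLeft₀ _ hne).isClosedEmbedding.tendsto_cocompact
        exact h3.comp (h2.mono_right atTop_le_cocompact)
    have hlim : Tendsto (fun k => ∑ j ∈ Finset.range N, ∑ l ∈ Finset.range N, T k j l) atTop
        (𝓝 ((N : ℂ) * m)) := by
      have h1 : ∑ j ∈ Finset.range N, ∑ l ∈ Finset.range N, (if j = l then (m : ℂ) else 0)
          = (N : ℂ) * m := by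
        have : ∀ j ∈ Finset.range N, ∑ l ∈ Finset.range N, (if j = l then (m : ℂ) else 0) = m := by
          intro j hj
          rw [Finset.sum_ite_eq, if_pos hj]
        rw [Finset.sum_congr rfl this, Finset.sum_const, Finset.card_range, nsmul_eq_mul]
      rw [← h1]
      exact tendsto_finsetSum _ (fun j _ => tendsto_finsetSum _ (fun l _ => hT j l))
    have hbd : ∀ k, ‖∑ j ∈ Finset.range N, ∑ l ∈ Finset.range N, T k j l‖ ≤ C ^ 2 * m := by
      intro k
      have h1 : ∑ j ∈ Finset.range N, ∑ l ∈ Finset.range N, T k j l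
          = ∫ x, ∑ j ∈ Finset.range N, ∑ l ∈ Finset.range N,
            e (((j : ℝ) - l) * (B ^ k * x + 1 / (2 * B))) * G x ∂μ := by
        rw [integral_finsetSum]
        · apply Finset.sum_congr rfl
          intro j _
          rw [integral_finsetSum]
          intro l _
          exact hint k j l
        · intro j _
          exact integrable_finsetSum _ (fun l _ => hint k j l)
      rw [h1, hm, ← integral_const_mul]
      apply norm_integral_le_of_norm_le (hfint.const_mul _)
      filter_upwards [hE] with x hx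
      have h2 : ∑ j ∈ Finset.range N, ∑ l ∈ Finset.range N,
            e (((j : ℝ) - l) * (B ^ k * x + 1 / (2 * B))) * G x
          = ((∑ j ∈ Finset.range N, e (j * (B ^ k * x + 1 / (2 * B)))) *
            (starRingEnd ℂ) (∑ j ∈ Finset.range N, e (j * (B ^ k * x + 1 / (2 * B))))) * f x := by
        rw [map_sum, Finset.sum_mul_sum, Finset.sum_mul]
        apply Finset.sum_congr rfl
        intro j _
        rw [Finset.sum_mul]
        apply Finset.sum_congr rfl
        intro l _
        rw [← e_neg, ← e_add, hG]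
        congr 2
        ring
      rw [h2, norm_mul, norm_mul, RCLike.norm_conj, Complex.norm_real, Real.norm_of_nonneg (hf0 x)]
      by_cases hxB : x ∈ piece B
      · have h3 := dirichlet_bound (by omega : 3 ≤ B) hxB k N
        rw [← hC] at h3
        have h4 := norm_nonneg (∑ j ∈ Finset.range N, e (j * (B ^ k * x + 1 / (2 * B))))
        rw [← sq]
        apply mul_le_mul_of_nonneg_right _ (hf0 x)
        exact pow_le_pow_left₀ h4 h3 2
      · rw [hfzero x hx hxB]
        simp
    have h5 := le_of_tendsto hlim.norm (Eventually.of_forall hbd)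
    rw [norm_mul, Complex.norm_natCast, Complex.norm_real, Real.norm_of_nonneg hmpos.le] at h5
    exact h5
  obtain ⟨N, hN⟩ := exists_nat_gt (C ^ 2)
  have h6 := main N
  have h7 := lt_of_lt_of_le (mul_lt_mul_of_pos_right hN hmpos) h6
  exact lt_irrefl _ h7

/-- **Negative answer to MP_701998_an, Q1 and Q2.** There is a perfect set `E ⊂ ℝ` containing an
affine copy of every finite set such that no nonzero finite Borel measure supported on `E` has a
decaying Fourier transform. -/
theorem result : ∃ E : Set ℝ, Perfect E ∧ ContainsAllFinitePatterns E ∧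
    ∀ μ : Measure ℝ, IsFiniteMeasure μ → μ ≠ 0 → μ.support ⊆ E → ¬ Decays μ :=
  ⟨bigE, perfect_bigE, patterns_bigE, fun μ _ h0 hs => no_decay μ h0 hs⟩

end Pool.Agent.Results.MP_701998_an.NoDecayAllPatterns
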